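import Mathlib
import Pool.Agent.N30.HM.Am

/-!
# The mixed moments of zeta: full main term, and the Lindelöf hypothesis

Let `z(t) = ζ(1/2 + it)`.  For `K ≥ 2` let `P_K` be the polynomial of degree `K - 1`, with leading coefficient
`1/(K-1)!`, which is the main term of the divisor problem: `∑_{n ≤ y} d_K(n) = y P_K(log y) + O(y^{1-δ})`.  The mixed
moment of order `K` is `∫_0^T z(t)^{K-1} conj z(t) dt`, the `(K-2)`-th harmonic, in the argument of zeta, of the measure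
`|z(t)|^K dt`; for `K = 2` it is the second moment.

* (unconditional, all `K ≥ 2`) In Gaussian windows of width `Δ ≥ T^{1-δ}` about `T`, `Δ √(log T) ≤ T / B`, the mixed moment of
  order `K` is `∫ (P_K + P_K')(log (t/2π))`, with all lower order terms and a power saving: the error is `O(Δ T^{-δ})`.
* (remainder and size, all `K ≥ 2`, `θ ≥ 0`) If the mixed moment of order `K` on `[0, T]` is
  `T P_K(log (T/2π)) + O(T^{θ+ε})` for all `ε > 0`, then `ζ(1/2 + it) = O(t^{θ/K + ε})` for all `ε > 0`.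
* (Lindelöf hypothesis) The following are equivalent: the Lindelöf hypothesis; for all `K ≥ 2` the mixed moment on `[0, T]` is
  `T P_K(log (T/2π)) + O(T^{1-δ})` for some `δ = δ(K) > 0`; for all `K ≥ 2` it is asymptotic to
  `T (log T)^{K-1} / (K-1)!`; for infinitely many `K` it is `O(T^{1+ε})` for all `ε > 0`.
-/

set_option autoImplicit false

open Filter Topology MeasureTheory Polynomial

namespace Pool.Agent.Results.MP_07318d_nt.MixedMoments

/-- The value `ζ(1/2 + it)`. -/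
noncomputable def z (t : ℝ) : ℂ := riemannZeta (1 / 2 + t * Complex.I)

/-- The mixed moment of order `K`. -/
noncomputable def Mix (K : ℕ) (T : ℝ) : ℂ := ∫ t in (0 : ℝ)..T, z t ^ (K - 1) * (starRingEnd ℂ) (z t)

/-- The sum of `d_K(n)` for `n ≤ y`, where `d_K(n)` is the number of ordered factorisations of `n` in `K` factors. -/
noncomputable def D (K : ℕ) (y : ℝ) : ℝ :=
  ∑ n ∈ Finset.Icc 1 ⌊y⌋₊, (((ArithmeticFunction.zeta ^ K : ArithmeticFunction ℕ) n : ℕ) : ℝ)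

/-- `ζ(1/2 + it) = O(t^(κ + ε))` for all `ε > 0`; for `κ = 0` this is the Lindelöf hypothesis. -/
def Growth (κ : ℝ) : Prop := ∀ ε : ℝ, 0 < ε → ∃ C T₀ : ℝ, ∀ t : ℝ, T₀ ≤ t → ‖z t‖ ≤ C * t ^ (κ + ε)

/-- The Gaussian weight. -/
noncomputable def g (T Δ t : ℝ) : ℝ := Real.exp (-((t - T) / Δ) ^ 2)

open Pool.Agent.N30.HM


lemma Growth_iff (κ : ℝ) : Growth κ ↔ Expo κ := Iff.rfl

lemma Mix_eq {K : ℕ} (hK : 2 ≤ K) (T : ℝ) : Mix K T = AA K (K - 2) T := by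
  unfold Mix AA
  apply intervalIntegral.integral_congr
  intro t _
  exact (tw_mixed hK t).symm

/-- **Theorem.** -/
theorem result : ∃ P : ℕ → ℝ[X],
    (∀ K : ℕ, 2 ≤ K → (P K).natDegree = K - 1 ∧ (P K).leadingCoeff = 1 / ((K - 1).factorial : ℝ) ∧
      ∃ C δ B T₀ : ℝ, 0 < δ ∧
        (∀ y : ℝ, 1 ≤ y → |D K y - y * (P K).eval (Real.log y)| ≤ C * y ^ (1 - δ)) ∧
        ∀ T Δ : ℝ, T₀ ≤ T → T ^ (1 - δ) ≤ Δ → B * Δ * √(Real.log T) ≤ T →
          ‖∫ t in (T / 2)..(3 * T / 2), (z t ^ (K - 1) * (starRingEnd ℂ) (z t) -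
            (((P K + derivative (P K)).eval (Real.log (t / (2 * Real.pi))) : ℝ) : ℂ)) * ((g T Δ t : ℝ) : ℂ)‖ ≤
              C * Δ * T ^ (-δ)) ∧
    (∀ K : ℕ, 2 ≤ K → ∀ θ : ℝ, 0 ≤ θ →
      (∀ ε : ℝ, 0 < ε → ∃ C T₀ : ℝ, ∀ T : ℝ, T₀ ≤ T →
        ‖Mix K T - ((T * (P K).eval (Real.log (T / (2 * Real.pi))) : ℝ) : ℂ)‖ ≤ C * T ^ (θ + ε)) → Growth (θ / K)) ∧
    List.TFAE [
      Growth 0,
      ∀ K : ℕ, 2 ≤ K → ∃ C δ T₀ : ℝ, 0 < δ ∧ ∀ T : ℝ, T₀ ≤ T →
        ‖Mix K T - ((T * (P K).eval (Real.log (T / (2 * Real.pi))) : ℝ) : ℂ)‖ ≤ C * T ^ (1 - δ),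
      ∀ K : ℕ, 2 ≤ K → Tendsto (fun T : ℝ => Mix K T / ((T * Real.log T ^ (K - 1) : ℝ) : ℂ)) atTop
        (𝓝 (1 / ((K - 1).factorial : ℂ))),
      ∀ N : ℕ, ∃ K : ℕ, N ≤ K ∧ 2 ≤ K ∧ ∀ ε : ℝ, 0 < ε → ∃ C T₀ : ℝ, ∀ T : ℝ, T₀ ≤ T →
        ‖Mix K T‖ ≤ C * T ^ (1 + ε)] := by
  have hw := fun (K : ℕ) (hK : 2 ≤ K) => window K hK
  choose P hP using hw
  obtain ⟨Q, hQ⟩ : ∃ Q : ℕ → ℝ[X], Q = fun K => if hK : 2 ≤ K then P K hK else 0 := ⟨_, rfl⟩
  have hQK : ∀ (K : ℕ) (hK : 2 ≤ K), Q K = P K hK := by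
    intro K hK
    rw [hQ]
    simp only
    rw [dif_pos hK]
  have hdeg : ∀ (K : ℕ), 2 ≤ K → (Q K).natDegree ≤ K - 1 ∧ (Q K).coeff (K - 1) = 1 / ((K - 1).factorial : ℝ) := by
    intro K hK
    rw [hQK K hK]
    exact ⟨(hP K hK).1, (hP K hK).2.1⟩
  have hDD : ∀ (K : ℕ) (y : ℝ), D K y = Pool.Agent.TH935.LP.SD K ⌊y⌋₊ := fun K y => rfl
  refine ⟨Q, fun K hK => ?_, fun K hK θ hθ H => ?_, ?_⟩
  · obtain ⟨-, -, C, δ, B, T₀, hC, hδ, hδ8, hB, hT₀, h1, h2⟩ := hP K hK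
    obtain ⟨hd, hc⟩ := hdeg K hK
    have hne : (Q K).coeff (K - 1) ≠ 0 := by
      rw [hc]
      have : ((K - 1).factorial : ℝ) ≠ 0 := by exact_mod_cast (K - 1).factorial_ne_zero
      exact one_div_ne_zero this
    have hnd : (Q K).natDegree = K - 1 := le_antisymm hd (le_natDegree_of_ne_zero hne)
    refine ⟨hnd, ?_, C, δ, B, T₀, hδ, fun y hy => ?_, fun T Δ hT hΔ hBT => ?_⟩
    · rw [leadingCoeff, hnd, hc]
    · rw [hDD, hQK K hK]
      exact h1 y hy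
    · have h3 := h2 T Δ hT hΔ hBT
      rw [hQK K hK]
      have e : ∫ t in (T / 2)..(3 * T / 2), (z t ^ (K - 1) * (starRingEnd ℂ) (z t) -
            (((P K hK + derivative (P K hK)).eval (Real.log (t / (2 * Real.pi))) : ℝ) : ℂ)) * ((g T Δ t : ℝ) : ℂ) =
          ∫ t in (T / 2)..(3 * T / 2), (tw K (K - 2) t -
            (((P K hK + derivative (P K hK)).eval (Real.log (t / (2 * Real.pi))) : ℝ) : ℂ)) *
              ((Pool.Agent.W188.QS.gg T Δ t : ℝ) : ℂ) := by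
        apply intervalIntegral.integral_congr
        intro t _
        simp only
        rw [tw_mixed hK t]
        rfl
      rw [e, mul_assoc]
      exact h3
  · rw [Growth_iff]
    apply root (by omega)
    intro ε hε
    apply detectG (m := K - 2) (by omega) (by omega) (fun T => ((T * (Q K).eval (Real.log (T / (2 * Real.pi))) : ℝ) : ℂ)) _ hθ _ hε
    · intro ε hε
      exact main_slow (Q K) ε hε
    · intro ε hε
      obtain ⟨C, T₀, h1⟩ := H ε hε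
      refine ⟨C, T₀, fun T hT => ?_⟩
      rw [← Mix_eq hK]
      exact h1 T hT
  · tfae_have 1 → 2 := by
      intro H K hK
      obtain ⟨-, -, C, δ, B, T₀, hC, hδ, hδ8, hB, hT₀, -, h2⟩ := hP K hK
      obtain ⟨C', X₁, h3⟩ := sharp_mixed hK H hC hδ hδ8 hB h2
      refine ⟨C', δ / 8, X₁, by positivity, fun T hT => ?_⟩
      rw [Mix_eq hK, hQK K hK]
      exact h3 T hT
    tfae_have 2 → 3 := by
      intro H K hK
      obtain ⟨C, δ, T₀, hδ, h1⟩ := H K hK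
      obtain ⟨hd, hc⟩ := hdeg K hK
      have h2 := to_lead hK hd hc hδ (C := C) (X₁ := T₀) (fun T hT => by rw [← Mix_eq hK]; exact h1 T hT)
      refine h2.congr fun T => ?_
      rw [Mix_eq hK]
    tfae_have 3 → 4 := by
      intro H N
      have hK : 2 ≤ max N 2 := le_max_right _ _
      refine ⟨max N 2, le_max_left _ _, hK, fun ε hε => ?_⟩
      have h1 := H (max N 2) hK
      have h2 : Tendsto (fun T : ℝ => AA (max N 2) (max N 2 - 2) T / ((T * Real.log T ^ (max N 2 - 1) : ℝ) : ℂ)) atTop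
          (𝓝 (1 / ((max N 2 - 1).factorial : ℂ))) := h1.congr fun T => by rw [Mix_eq hK]
      obtain ⟨C, T₀, h3⟩ := lead_bd h2 hε
      refine ⟨C, T₀, fun T hT => ?_⟩
      rw [Mix_eq hK]
      exact h3 T hT
    tfae_have 4 → 1 := by
      intro H
      rw [Growth_iff]
      apply inf_mixed
      intro N
      obtain ⟨K, hNK, hK, h⟩ := H N
      refine ⟨K, hNK, hK, fun ε hε => ?_⟩
      obtain ⟨C, T₀, h1⟩ := h ε hε
      refine ⟨C, T₀, fun T hT => ?_⟩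
      rw [← Mix_eq hK]
      exact h1 T hT
    tfae_finish

end Pool.Agent.Results.MP_07318d_nt.MixedMoments
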