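import Pool.Agent.N879.SQ.All

set_option autoImplicit false

/-!
Full moment asymptotics with square-root remainder for almost all shifts: the shifted moments of the
Riemann zeta function of every order `2k`, with `2k` separate shifts in `[0, T]`, compared with the
full prediction of the recipe, with remainder `T ^ (1/2 + ε)`, for all shift vectors in the cube
`[0, T] ^ (2k)` outside a set whose measure is smaller than that of the cube by a power of `T`.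
-/

namespace Pool.Agent.Results.MP_07318d_nt.SeparateShifts

open Complex MeasureTheory Filter

noncomputable section

variable {k : ℕ}

/-- The Euler factor of `A_k` at the prime `p`, at the point `(i a_1, …, i a_k, i b_1, …, i b_k)`. -/
def localFactor (a b : Fin k → ℝ) (p : ℕ) : ℂ :=
  (∏ l, ∏ j, (1 - (p : ℂ) ^ (-(1 + I * a l - I * b j)))) *
    ∫ θ in (0:ℝ)..1, ∏ j : Fin k,
      ((1 - exp (2 * Real.pi * I * θ) / (p : ℂ) ^ (1 / 2 + I * (a j : ℂ)))⁻¹ *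
        (1 - exp (-(2 * Real.pi * I * θ)) / (p : ℂ) ^ (1 / 2 - I * (b j : ℂ)))⁻¹)

/-- The arithmetic factor `A_k(i a_1, …, i a_k, i b_1, …, i b_k)`, an Euler product. -/
def A (a b : Fin k → ℝ) : ℂ := ∏' p : Nat.Primes, localFactor a b p

/-- `G(i a_1, …, i a_k, i b_1, …, i b_k)`. -/
def G (a b : Fin k → ℝ) : ℂ := A a b * ∏ l, ∏ j, riemannZeta (1 + I * a l - I * b j)

/-- The factor `χ` of the functional equation `ζ(s) = χ(s) ζ(1 - s)`. -/
def chi (s : ℂ) : ℂ := (Real.pi : ℂ) ^ (s - 1 / 2) * Gamma ((1 - s) / 2) / Gamma (s / 2)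

/-- The product of the zeta values with the shifts `γ = (α, β)`, indexed by `Fin k ⊕ Fin k`. -/
def Z (γ : Fin k ⊕ Fin k → ℝ) (t : ℝ) : ℂ :=
  ∏ j : Fin k, riemannZeta (1 / 2 + I * (t + γ (Sum.inl j))) *
    riemannZeta (1 / 2 - I * (t + γ (Sum.inr j)))

/-- The quotient of `Z_γ(t)` and `Z_{π(γ)}(t)` given by the functional equation; `π(γ)` has the
coordinates `γ (π i)`. -/
def swap (γ : Fin k ⊕ Fin k → ℝ) (t : ℝ) (π : Equiv.Perm (Fin k ⊕ Fin k)) : ℂ :=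
  (∏ j : Fin k, if (π (Sum.inl j)).isRight then chi (1 / 2 - I * t - I * γ (π (Sum.inl j))) else 1) *
  ∏ j : Fin k, if (π (Sum.inr j)).isLeft then chi (1 / 2 + I * t + I * γ (π (Sum.inr j))) else 1

/-- The recipe: the sum over the `(2k choose k)` choices of which `k` of the `2k` shifts go with
`ζ(1/2 + it)`. The summand depends only on the class of `π` in `S_{2k} / (S_k × S_k)`, so the sum over
the classes is the sum over all `π`, divided by `(k!) ^ 2`. -/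
def recipe (γ : Fin k ⊕ Fin k → ℝ) (t : ℝ) : ℂ :=
  ((Nat.factorial k : ℂ) ^ 2)⁻¹ * ∑ π : Equiv.Perm (Fin k ⊕ Fin k),
    swap γ t π * G (fun j => γ (π (Sum.inl j))) (fun j => γ (π (Sum.inr j)))

open Pool.Agent.TH612.CF in
lemma G_eq (a b : Fin k → ℝ) :
    G a b = zab (fun j => (a j : ℂ)) (fun j => (b j : ℂ)) := by
  unfold G zab A FH
  congr 1
  refine tprod_congr fun p => ?_
  unfold localFactor lh
  rw [Pool.Agent.N879.SQ.t_AK k a b p p.2]

open Pool.Agent.TH612.CF in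
lemma recipe_eq (γ : Fin k ⊕ Fin k → ℝ) (t : ℝ) :
    recipe γ t = ((Nat.factorial k : ℂ) ^ 2)⁻¹ * Qs t (fun i => (γ i : ℂ)) := by
  unfold recipe Qs Rt
  congr 1
  refine Finset.sum_congr rfl fun π _ => ?_
  rw [G_eq]
  rfl

lemma Z_cont (γ : Fin k ⊕ Fin k → ℝ) : Continuous (fun t : ℝ => Z γ t) :=
  Pool.Agent.TH612.GS.Zg_cont γ

lemma recipe_cont (γ : Fin k ⊕ Fin k → ℝ) : Continuous fun t : ℝ => recipe γ t := by
  have h := (continuous_const (y := ((Nat.factorial k : ℂ) ^ 2)⁻¹)).mul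
    (Pool.Agent.TH612.GS.Qs_cont γ)
  refine h.congr fun t => ?_
  rw [recipe_eq]
  rfl

lemma int_ff (γ : Fin k ⊕ Fin k → ℝ) (a b : ℝ) :
    (∫ t in a..b, Pool.Agent.N879.SQ.ff γ t) = (∫ t in a..b, Z γ t) - ∫ t in a..b, recipe γ t := by
  rw [← intervalIntegral.integral_sub ((Z_cont γ).intervalIntegrable _ _)
    ((recipe_cont γ).intervalIntegrable _ _)]
  refine intervalIntegral.integral_congr fun t _ => ?_
  simp only [recipe_eq]
  rfl

lemma int_fd (γ : Fin k ⊕ Fin k → ℝ) (a b : ℝ) :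
    (∫ t in a..b, Pool.Agent.N879.SQ.fd γ t) = (∫ t in a..b, Z γ t) -
      (b - a : ℝ) * G (fun j => γ (Sum.inl j)) (fun j => γ (Sum.inr j)) := by
  unfold Pool.Agent.N879.SQ.fd
  rw [intervalIntegral.integral_sub
    ((Pool.Agent.TH612.GS.Zg_cont γ).intervalIntegrable _ _)
    (continuous_const.intervalIntegrable _ _), intervalIntegral.integral_const, G_eq]
  simp only [real_smul]
  rfl

lemma union_le {T δ δ1 δ2 : ℝ} (hT : 1 ≤ T) (h1 : 2 * δ ≤ δ1) (h2 : 2 * δ ≤ δ2) (h3 : 2 ≤ T ^ δ)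
    {E E1 E2 : Set (Fin k ⊕ Fin k → ℝ)} (hE : E ⊆ E1 ∪ E2)
    (hc : ∀ γ ∈ E, ∀ i, 0 ≤ γ i ∧ γ i ≤ T)
    (m1 : Pool.Agent.TH612.GS.mP (Fin k ⊕ Fin k) T E1 ≤ ENNReal.ofReal (T ^ (2 * k - δ1 : ℝ)))
    (m2 : Pool.Agent.TH612.GS.mP (Fin k ⊕ Fin k) T E2 ≤ ENNReal.ofReal (T ^ (2 * k - δ2 : ℝ))) :
    volume E ≤ ENNReal.ofReal (T ^ (2 * k - δ : ℝ)) := by
  have hTp : 0 < T := by linarith
  rw [Pool.Agent.TH612.GS.vol_cube (T := T) hc]
  refine (measure_mono hE).trans ((measure_union_le _ _).trans ((add_le_add m1 m2).trans ?_))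
  have p1 : T ^ (2 * k - δ1 : ℝ) ≤ T ^ (2 * k - 2 * δ : ℝ) :=
    Real.rpow_le_rpow_of_exponent_le hT (by linarith)
  have p2 : T ^ (2 * k - δ2 : ℝ) ≤ T ^ (2 * k - 2 * δ : ℝ) :=
    Real.rpow_le_rpow_of_exponent_le hT (by linarith)
  have p3 : T ^ (2 * k - δ : ℝ) = T ^ (2 * k - 2 * δ : ℝ) * T ^ δ := by
    rw [← Real.rpow_add hTp]
    congr 1
    ring
  rw [← ENNReal.ofReal_add (by positivity) (by positivity)]
  refine ENNReal.ofReal_le_ofReal ?_
  rw [p3]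
  have p4 : 0 < T ^ (2 * k - 2 * δ : ℝ) := by positivity
  nlinarith

/-- For every `k` and `ε > 0` there are `δ > 0` and `T₀` such that for every `T ≥ T₀` the following
holds, for shift vectors `γ = (α, β)` in the cube `[0, T] ^ (2k)`.

(A) For all `γ` outside a set of measure at most `T ^ (2k - δ)` and all `0 ≤ S ≤ T`: the integral over
`[0, S]` of the product `Z_γ` of zeta values differs by at most `T ^ (1/2 + ε)` from the integral of
the recipe, and from `S G(iα, iβ)`.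

(B) For every window `[a, b]` in `[0, T]` and all `γ` outside a set (depending on the window) of
measure at most `T ^ (2k - δ)`: the integral over `[a, b]` of `Z_γ` differs by at most
`(b - a) ^ (1/2) T ^ ε` from the integral of the recipe, and from `(b - a) G(iα, iβ)`. -/
theorem result (k : ℕ) :
    (∀ γ : Fin k ⊕ Fin k → ℝ, Continuous (fun t : ℝ => Z γ t) ∧
      Continuous fun t : ℝ => recipe γ t) ∧
    ∀ ε : ℝ, 0 < ε → ∃ δ : ℝ, 0 < δ ∧ ∃ T₀ : ℝ, ∀ T : ℝ, T₀ ≤ T →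
      (volume {γ : Fin k ⊕ Fin k → ℝ | (∀ i, 0 ≤ γ i ∧ γ i ≤ T) ∧
        ∃ S : ℝ, 0 ≤ S ∧ S ≤ T ∧
          (T ^ (1 / 2 + ε) < ‖(∫ t in (0:ℝ)..S, Z γ t) - ∫ t in (0:ℝ)..S, recipe γ t‖ ∨
          T ^ (1 / 2 + ε) < ‖(∫ t in (0:ℝ)..S, Z γ t) -
            S * G (fun j => γ (Sum.inl j)) (fun j => γ (Sum.inr j))‖)} ≤
        ENNReal.ofReal (T ^ (2 * k - δ : ℝ))) ∧
      ∀ a b : ℝ, 0 ≤ a → a ≤ b → b ≤ T →
        volume {γ : Fin k ⊕ Fin k → ℝ | (∀ i, 0 ≤ γ i ∧ γ i ≤ T) ∧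
          ((b - a) ^ (1 / 2 : ℝ) * T ^ ε <
            ‖(∫ t in a..b, Z γ t) - ∫ t in a..b, recipe γ t‖ ∨
          (b - a) ^ (1 / 2 : ℝ) * T ^ ε < ‖(∫ t in a..b, Z γ t) -
            (b - a : ℝ) * G (fun j => γ (Sum.inl j)) (fun j => γ (Sum.inr j))‖)} ≤
        ENNReal.ofReal (T ^ (2 * k - δ : ℝ)) := by
  refine ⟨fun γ => ⟨Z_cont γ, recipe_cont γ⟩, fun ε hε => ?_⟩
  obtain ⟨δ1, T1, hδ1, h1⟩ := Pool.Agent.N879.SQ.fin k ε hε
  obtain ⟨δ2, T2, hδ2, h2⟩ := Pool.Agent.N879.SQ.fid k ε hε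
  obtain ⟨δ3, T3, hδ3, h3⟩ := Pool.Agent.N879.SQ.win k ε hε
  obtain ⟨δ4, T4, hδ4, h4⟩ := Pool.Agent.N879.SQ.wid k ε hε
  set δ : ℝ := min (min δ1 δ2) (min δ3 δ4) / 2 with hδ
  have hδ0 : 0 < δ := half_pos (lt_min (lt_min hδ1 hδ2) (lt_min hδ3 hδ4))
  have hl := min_le_left (min δ1 δ2) (min δ3 δ4)
  have hr := min_le_right (min δ1 δ2) (min δ3 δ4)
  have hle1 : 2 * δ ≤ δ1 := by rw [hδ]; linarith [min_le_left δ1 δ2]
  have hle2 : 2 * δ ≤ δ2 := by rw [hδ]; linarith [min_le_right δ1 δ2]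
  have hle3 : 2 * δ ≤ δ3 := by rw [hδ]; linarith [min_le_left δ3 δ4]
  have hle4 : 2 * δ ≤ δ4 := by rw [hδ]; linarith [min_le_right δ3 δ4]
  obtain ⟨T5, hT5⟩ := eventually_atTop.1
    ((tendsto_rpow_atTop hδ0).eventually_ge_atTop 2)
  refine ⟨δ, hδ0, max (max (max T1 T2) (max T3 T4)) (max T5 1), fun T hT => ?_⟩
  have hTl := (le_max_left _ _).trans hT
  have hTr := (le_max_right _ _).trans hT
  have hTT1 : T1 ≤ T := ((le_max_left _ _).trans (le_max_left _ _)).trans hTl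
  have hTT2 : T2 ≤ T := ((le_max_right _ _).trans (le_max_left _ _)).trans hTl
  have hTT3 : T3 ≤ T := ((le_max_left _ _).trans (le_max_right _ _)).trans hTl
  have hTT4 : T4 ≤ T := ((le_max_right _ _).trans (le_max_right _ _)).trans hTl
  have hTT5 : T5 ≤ T := (le_max_left _ _).trans hTr
  have hT1' : 1 ≤ T := (le_max_right _ _).trans hTr
  have hbig := hT5 T hTT5
  constructor
  · refine union_le hT1' hle1 hle2 hbig (E1 := Pool.Agent.TH612.GS.Bad k T (T ^ (1 / 2 + ε)))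
      (E2 := Pool.Agent.N879.SQ.BadD k T (T ^ (1 / 2 + ε))) ?_ (fun γ hγ => hγ.1) (h1 T hTT1)
      (h2 T hTT2)
    rintro γ ⟨hc, S, hS0, hST, h | h⟩
    · left
      refine ⟨hc, S, hS0, hST, ?_⟩
      have e := int_ff γ 0 S
      rw [← e] at h
      exact h
    · right
      refine ⟨hc, S, hS0, hST, ?_⟩
      have e := int_fd γ 0 S
      rw [sub_zero] at e
      rw [← e] at h
      exact h
  · intro a b ha hab hb
    refine union_le hT1' hle3 hle4 hbig ?_ (fun γ hγ => hγ.1) (h3 T hTT3 a b ha hab hb)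
      (h4 T hTT4 a b ha hab hb)
    rintro γ ⟨hc, h | h⟩
    · left
      refine ⟨hc, ?_⟩
      rw [← int_ff γ a b] at h
      exact h
    · right
      refine ⟨hc, ?_⟩
      rw [← int_fd γ a b] at h
      exact h

end

end Pool.Agent.Results.MP_07318d_nt.SeparateShifts
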