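import Pool.Agent.N30.SR.Fin

/-! # The `(K-1,1)` moments of zeta with square-root remainder -/

set_option autoImplicit false

open MeasureTheory Polynomial

namespace Pool.Agent.Results.MP_07318d_nt.SquareRootRemainder

/-- `z(t) = ζ(1/2 + it)` -/
noncomputable def z (t : ℝ) : ℂ := riemannZeta (1 / 2 + (t : ℂ) * Complex.I)

/-- `∫_0^T z(t)^(K-1) conj z(t) dt` -/
noncomputable def Mix (K : ℕ) (T : ℝ) : ℂ := ∫ t in (0 : ℝ)..T, z t ^ (K - 1) * (starRingEnd ℂ) (z t)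

/-- `Σ_{n ≤ y} d_K(n)` -/
noncomputable def D (K : ℕ) (y : ℝ) : ℝ :=
  ∑ n ∈ Finset.Icc 1 ⌊y⌋₊, (((ArithmeticFunction.zeta ^ K : ArithmeticFunction ℕ) n : ℕ) : ℝ)

/-- `f(T) = O(T^(θ+ε))` for every `ε > 0` -/
def BO (θ : ℝ) (f : ℝ → ℂ) : Prop :=
  ∀ ε : ℝ, 0 < ε → ∃ C T₀ : ℝ, ∀ T : ℝ, T₀ ≤ T → ‖f T‖ ≤ C * T ^ (θ + ε)

/-- The remainder in the `(K-1,1)` moment of zeta, above the exponent `1/2`, is exactly as large as the
`K`-th power of zeta; square-root remainder for `K = 3`, and for all `K` if and only if Lindelöf's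
hypothesis holds. -/
theorem result : ∃ P : ℕ → ℝ[X],
    (∀ K : ℕ, 2 ≤ K → (P K).natDegree = K - 1 ∧ (P K).leadingCoeff = 1 / ((K - 1).factorial : ℝ) ∧
      ∃ δ C : ℝ, 0 < δ ∧ ∀ y : ℝ, 1 ≤ y → |D K y - y * (P K).eval (Real.log y)| ≤ C * y ^ (1 - δ)) ∧
    (∀ K : ℕ, 2 ≤ K → ∀ θ : ℝ, 1 / 2 ≤ θ →
      (BO θ (fun T => Mix K T - ((2 * Real.pi * D K (T / (2 * Real.pi)) : ℝ) : ℂ)) ↔ BO (θ / K) z) ∧
      (BO θ (fun T => Mix K T - ((T * (P K).eval (Real.log (T / (2 * Real.pi))) : ℝ) : ℂ)) ↔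
        BO (θ / K) z ∧ BO θ (fun y => ((D K y - y * (P K).eval (Real.log y) : ℝ) : ℂ)))) ∧
    (∀ K : ℕ, 3 ≤ K → BO (K / 6) (fun T => Mix K T - ((2 * Real.pi * D K (T / (2 * Real.pi)) : ℝ) : ℂ))) ∧
    BO (1 / 2) (fun T => Mix 3 T - ((T * (P 3).eval (Real.log (T / (2 * Real.pi))) : ℝ) : ℂ)) ∧
    BO (2 / 3) (fun T => Mix 4 T - ((T * (P 4).eval (Real.log (T / (2 * Real.pi))) : ℝ) : ℂ)) ∧
    [BO 0 z,
      ∀ K : ℕ, 2 ≤ K → BO (1 / 2) (fun T => Mix K T - ((T * (P K).eval (Real.log (T / (2 * Real.pi))) : ℝ) : ℂ)),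
      ∀ N : ℕ, ∃ K : ℕ, N ≤ K ∧ 2 ≤ K ∧
        BO (1 / 2) (fun T => Mix K T - ((T * (P K).eval (Real.log (T / (2 * Real.pi))) : ℝ) : ℂ))].TFAE := by
  obtain ⟨P, h1, h2, h3, h4, h5, h6⟩ := Pool.Agent.N30.SR.fin_all
  have hM : ∀ K : ℕ, 2 ≤ K → ∀ T : ℝ, Pool.Agent.N30.HM.AA K (K - 2) T = Mix K T := by
    intro K hK T
    unfold Pool.Agent.N30.HM.AA Mix
    congr 1
    funext t
    exact Pool.Agent.N30.HM.tw_mixed hK t
  have eA : ∀ K : ℕ, 2 ≤ K → Pool.Agent.N30.SR.RA K =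
      fun T => Mix K T - ((2 * Real.pi * D K (T / (2 * Real.pi)) : ℝ) : ℂ) := by
    intro K hK
    funext T
    unfold Pool.Agent.N30.SR.RA
    rw [hM K hK]
    rfl
  have eP : ∀ K : ℕ, 2 ≤ K → Pool.Agent.N30.SR.RP (P K) K =
      fun T => Mix K T - ((T * (P K).eval (Real.log (T / (2 * Real.pi))) : ℝ) : ℂ) := by
    intro K hK
    funext T
    unfold Pool.Agent.N30.SR.RP
    rw [hM K hK]
  refine ⟨P, fun K hK => ?_, fun K hK θ hθ => ?_, fun K hK => ?_, ?_, ?_, ?_⟩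
  · obtain ⟨g1, g2, δ, g3, -, C, g4⟩ := h1 K hK
    exact ⟨g1, g2, δ, C, g3, g4⟩
  · obtain ⟨g1, g2⟩ := h2 K hK θ hθ
    rw [eA K hK] at g1
    rw [eP K hK] at g2
    exact ⟨g1, g2⟩
  · have g := h3 K hK
    rw [eA K (by omega)] at g
    exact g
  · rw [eP 3 (by norm_num)] at h4
    exact h4
  · rw [eP 4 (by norm_num)] at h5
    exact h5
  · have e : ∀ K : ℕ, 2 ≤ K → (Pool.Agent.N30.SR.BO (1 / 2) (Pool.Agent.N30.SR.RP (P K) K) ↔
        BO (1 / 2) (fun T => Mix K T - ((T * (P K).eval (Real.log (T / (2 * Real.pi))) : ℝ) : ℂ))) := by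
      intro K hK
      rw [eP K hK]
      rfl
    have h12 := h6.out 0 1
    have h13 := h6.out 0 2
    tfae_have 1 ↔ 2 := by
      refine Iff.trans h12 ?_
      constructor
      · intro g K hK
        exact (e K hK).1 (g K hK)
      · intro g K hK
        exact (e K hK).2 (g K hK)
    tfae_have 1 ↔ 3 := by
      refine Iff.trans h13 ?_
      constructor
      · intro g N
        obtain ⟨K, g1, g2, g3⟩ := g N
        exact ⟨K, g1, g2, (e K g2).1 g3⟩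
      · intro g N
        obtain ⟨K, g1, g2, g3⟩ := g N
        exact ⟨K, g1, g2, (e K g2).2 g3⟩
    tfae_finish

end Pool.Agent.Results.MP_07318d_nt.SquareRootRemainder
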